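import Pool.Agent.Helper36.VC.St

/-!
# Project VC, module BND
-/

set_option autoImplicit false

open Cardinal Ordinal Set Filter
open Pool.Agent.Helper65.GS Pool.Agent.Helper36.VC

universe u

namespace Pool.Agent.Helper60.VC

/-- BND -/
theorem pBND : StBND.{u} := by
  intro X κ W A t l f h B hB g hg
  obtain ⟨h1, h2⟩ := h.vals hB hg
  set T : Set Ordinal.{u} := {a | a < κ.ord ∧ Pos W {x ∈ B | g x = a}} with hT
  have hord : Order.IsSuccLimit κ.ord := isSuccLimit_ord h.unc.le
  have hpos : 0 < κ.ord := by
    rw [pos_iff_ne_zero]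
    intro h0
    exact hord.ne_bot h0
  rcases T.eq_empty_or_nonempty with hE | hN
  · refine ⟨0, hpos, ?_⟩
    filter_upwards [h2] with x hx hxB
    have := hx hxB
    rw [hE] at this
    exact this.elim
  · obtain ⟨e, he⟩ := h1.exists_eq_range hN
    have hlt : ∀ n, e n < κ.ord := by
      intro n
      have : e n ∈ T := by rw [he]; exact mem_range_self n
      exact this.1
    have hsup : ⨆ n, e n < κ.ord := by
      apply Ordinal.lift_iSup_lt_of_lt_cof _ hlt
      rw [Ordinal.lift_uzero, h.reg.cof_ord]
      simpa using h.unc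
    refine ⟨Order.succ (⨆ n, e n), hord.succ_lt hsup, ?_⟩
    filter_upwards [h2] with x hx hxB
    have h3 := hx hxB
    rw [he] at h3
    obtain ⟨n, hn⟩ := h3
    rw [← hn, Order.lt_succ_iff]
    exact Ordinal.le_iSup e n

end Pool.Agent.Helper60.VC
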